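import Pool.Agent.Helper26.KN.Goals

/-! Packet MONO: monotone ratios of the sequences Un and An. -/

namespace KN.PkMONO

open Finset KN Pool.Agent.Helper97.RCK

theorem iter3 (w s1 s2 : ℝ) (f : ℕ → ℝ) (m : ℕ) : ∀ k : ℕ,
    ((step w)^[m] (fun i => f i + s1 * f (i + 1) + s2 * f (i + 2))) k =
      ((step w)^[m] f) k + s1 * ((step w)^[m] f) (k + 1) + s2 * ((step w)^[m] f) (k + 2) := by
  induction m with
  | zero => intro k; rfl
  | succ m ih =>
    intro k
    rw [Function.iterate_succ_apply', Function.iterate_succ_apply']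
    have e1 := ih k
    have e2 := ih (k + 1)
    simp only [step]
    rw [e1, e2]
    have e3 : k + 1 + 1 = k + 2 := rfl
    have e4 : k + 2 + 1 = k + 1 + 2 := rfl
    rw [e4]
    ring_nf

theorem iter2 (w c : ℝ) (g f : ℕ → ℝ) (m : ℕ) : ∀ k : ℕ,
    ((step w)^[m] (fun i => g i + c * f (i + 2))) k =
      ((step w)^[m] g) k + c * ((step w)^[m] f) (k + 2) := by
  induction m with
  | zero => intro k; rfl
  | succ m ih =>
    intro k
    rw [Function.iterate_succ_apply', Function.iterate_succ_apply', Function.iterate_succ_apply']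
    have e1 := ih k
    have e2 := ih (k + 1)
    simp only [step]
    rw [e1, e2]
    have e4 : k + 2 + 1 = k + 1 + 2 := rfl
    rw [e4]
    ring

/-- monotone ratios on `[0, M]` -/
def MR (U A : ℕ → ℝ) (M : ℕ) : Prop :=
  (∀ i, 0 < A i) ∧ ∀ i, i + 1 ≤ M → U (i + 1) * A i ≤ U i * A (i + 1)

theorem mr_step {U A : ℕ → ℝ} {M : ℕ} (h : MR U A (M + 1)) {w : ℝ} (hw : 0 ≤ w) :
    MR (step w U) (step w A) M := by
  refine ⟨fun i => ?_, fun i hi => ?_⟩
  · have := h.1 i
    have := h.1 (i + 1)
    unfold Pool.Agent.Helper97.RCK.step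
    positivity
  · have h0 := h.2 i (by omega)
    have h1 := h.2 (i + 1) (by omega)
    have p0 := h.1 i
    have p1 := h.1 (i + 1)
    have p2 := h.1 (i + 1 + 1)
    unfold Pool.Agent.Helper97.RCK.step
    set U0 := U i
    set U1 := U (i + 1)
    set U2 := U (i + 1 + 1)
    set A0 := A i
    set A1 := A (i + 1)
    set A2 := A (i + 1 + 1)
    have h2 : U2 * A0 ≤ U0 * A2 := by
      have a1 : (U2 * A1) * A0 ≤ (U1 * A2) * A0 := mul_le_mul_of_nonneg_right h1 p0.le
      have a2 : (U1 * A0) * A2 ≤ (U0 * A1) * A2 := mul_le_mul_of_nonneg_right h0 p2.le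
      have a3 : (U2 * A0) * A1 ≤ (U0 * A2) * A1 := by nlinarith
      exact le_of_mul_le_mul_right a3 p1
    have b1 : 0 ≤ w * (U0 * A2 - U2 * A0) := mul_nonneg hw (by linarith)
    have b2 : 0 ≤ w ^ 2 * (U1 * A2 - U2 * A1) := mul_nonneg (by positivity) (by linarith)
    nlinarith

theorem mr_iter {U A : ℕ → ℝ} {M : ℕ} {w : ℝ} (hw : 0 ≤ w) (m : ℕ) (h : MR U A (M + m)) :
    MR ((step w)^[m] U) ((step w)^[m] A) M := by
  induction m generalizing U A M with
  | zero => simpa using h
  | succ m ih =>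
    rw [Function.iterate_succ_apply, Function.iterate_succ_apply]
    exact ih (mr_step (by simpa [add_assoc] using h) hw)

theorem An_succ (q w x y : ℝ) (j m : ℕ) :
    An q w (j + 2 + m + 1) x y (j + 1) =
      (1 + w) ^ j * ((step w)^[m] (An q w (j + 2 + m) (x + w + x * w) (y + w + y * w))) j := by
  have hA : An q w (j + 2 + m) (x + w + x * w) (y + w + y * w) =
      fun i => phi q w (j + 2 + m) i +
        ((x + w + x * w) + (y + w + y * w)) * phi q w (j + 2 + m) (i + 1) +
        ((x + w + x * w) * (y + w + y * w)) * phi q w (j + 2 + m) (i + 2) := by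
    funext i; rfl
  rw [hA, iter3]
  set b := phi q w (j + 2 + m) with hb
  set u := (step w)^[m] b with hu
  have e1 : phi q w (j + 2 + m + 1) (j + 1) =
      (1 + w) ^ j * (u j + 2 * w * u (j + 1) + w ^ 2 * u (j + 2)) := by
    rw [phi]
    have : j + 2 + m - j = m + 1 + 1 := by omega
    rw [this, Function.iterate_succ_apply', Function.iterate_succ_apply']
    simp only [step, ← hb, ← hu]
    ring
  have e2 : phi q w (j + 2 + m + 1) (j + 1 + 1) =
      (1 + w) ^ (j + 1) * (u (j + 1) + w * u (j + 2)) := by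
    rw [phi]
    have : j + 2 + m - (j + 1) = m + 1 := by omega
    rw [this, Function.iterate_succ_apply']
    simp only [step, ← hb, ← hu]
  have e3 : phi q w (j + 2 + m + 1) (j + 1 + 2) = (1 + w) ^ (j + 2) * u (j + 2) := by
    change phi q w (j + 2 + m + 1) (j + 2 + 1) = _
    rw [phi]
    have : j + 2 + m - (j + 2) = m := by omega
    rw [this]
  rw [An, e1, e2, e3]
  ring

theorem Un_succ (q w x y : ℝ) (j m : ℕ) :
    Un q w (j + 2 + m + 1) x y (j + 1) =
      (1 + w) ^ j * ((step w)^[m] (Un q w (j + 2 + m) (x + w + x * w) (y + w + y * w))) j := by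
  have hU : Un q w (j + 2 + m) (x + w + x * w) (y + w + y * w) =
      fun i => Yn q w (j + 2 + m) i +
        ((x + w + x * w) + (y + w + y * w) + (x + w + x * w) * (y + w + y * w)) *
          phi q w (j + 2 + m) (i + 2) := by
    funext i; rfl
  rw [hU, iter2]
  set b := phi q w (j + 2 + m) with hb
  set u := (step w)^[m] b with hu
  have e3 : phi q w (j + 2 + m + 1) (j + 1 + 2) = (1 + w) ^ (j + 2) * u (j + 2) := by
    change phi q w (j + 2 + m + 1) (j + 2 + 1) = _
    rw [phi]
    have : j + 2 + m - (j + 2) = m := by omega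
    rw [this]
  have e4 : Yn q w (j + 2 + m + 1) (j + 1) =
      (1 + w) ^ j * (((step w)^[m] (Yn q w (j + 2 + m))) j + (2 * w + w ^ 2) * u (j + 2)) := by
    rw [Yn]
    have : j + 2 + m - 2 - j = m := by omega
    rw [this, iter2]
  rw [Un, e3, e4]
  ring

theorem mono : G_MONO := by
  intro q w hq hq1 hw hJB hYB N hN
  obtain ⟨n, rfl⟩ : ∃ n, N = n + 2 := ⟨N - 2, by omega⟩
  clear hN
  induction n with
  | zero => intro x y _ _ k hk; omega
  | succ n ih =>
    intro x y hx hy k hk
    cases k with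
    | zero =>
      have hn : 3 ≤ n + 1 + 2 := by omega
      have hJ := hJB (n + 1 + 2) hn
      have hY := hYB (n + 1 + 2) hn
      have hL := (phi_LC hq hq1 hw.le (n + 1 + 2)).1.2 1 (by omega)
      have e0 : phi q w (n + 1 + 2) 0 = q * phi q w (n + 1 + 2) 1 := by
        change phi q w (n + 1 + 1 + 1) 0 = q * phi q w (n + 1 + 1 + 1) (0 + 1)
        rw [phi, phi]
        simp
      have eY0 : Yn q w (n + 1 + 2) 0 = q * phi q w (n + 1 + 2) 2 := by
        change Yn q w (n + 1 + 1 + 1) 0 = _
        rw [Yn]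
      unfold JB at hJ
      simp only [An, Un, zero_add]
      rw [eY0, hY, e0]
      have r1 : (1 : ℕ) + 1 = 2 := rfl
      have r2 : (1 : ℕ) + 2 = 3 := rfl
      rw [r1, r2] at hL
      rw [r1, r2]
      set B1 := phi q w (n + 1 + 2) 1
      set B2 := phi q w (n + 1 + 2) 2
      set B3 := phi q w (n + 1 + 2) 3
      have hs : 0 ≤ x * y := mul_nonneg hx hy
      have hs1 : 0 ≤ x + y := by linarith
      have hs4 : 4 * (x * y) ≤ (x + y) ^ 2 := by nlinarith [sq_nonneg (x - y)]
      have hd : 0 ≤ B2 ^ 2 - B1 * B3 := by linarith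
      have k1 : (x * y) * ((B2 - B1) * (B2 - q * B3)) ≤ (x * y) * (4 * (B2 ^ 2 - B1 * B3)) :=
        mul_le_mul_of_nonneg_left hJ hs
      have k2 : 4 * (x * y) * (B2 ^ 2 - B1 * B3) ≤ (x + y) ^ 2 * (B2 ^ 2 - B1 * B3) :=
        mul_le_mul_of_nonneg_right hs4 hd
      have k3 : 0 ≤ (q * (x + y) + (x + y) * (x * y)) * (B2 ^ 2 - B1 * B3) :=
        mul_nonneg (by positivity) hd
      have key : (q * B2 + (x + y + x * y) * B2) * (B1 + (x + y) * B2 + x * y * B3) -
          (B2 + (x + y + x * y) * B3) * (q * B1 + (x + y) * B1 + x * y * B2) =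
          (q * (x + y) + (x + y) ^ 2 + (x + y) * (x * y)) * (B2 ^ 2 - B1 * B3) -
            (x * y) * ((B2 - B1) * (B2 - q * B3)) := by ring
      nlinarith
    | succ j =>
      obtain ⟨m, hm⟩ : ∃ m, n = j + 1 + m := ⟨n - (j + 1), by omega⟩
      subst hm
      have hMR : MR (Un q w (j + 1 + m + 2) (x + w + x * w) (y + w + y * w))
          (An q w (j + 1 + m + 2) (x + w + x * w) (y + w + y * w)) (j + 1 + m) := by
        refine ⟨fun i => ?_, fun i hi => ih _ _ (by positivity) (by positivity) i (by omega)⟩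
        have p0 := phi_pos hq hw.le (j + 1 + m + 2) i
        have p1 := phi_pos hq hw.le (j + 1 + m + 2) (i + 1)
        have p2 := phi_pos hq hw.le (j + 1 + m + 2) (i + 2)
        unfold An
        positivity
      have hI := (mr_iter hw.le m hMR).2 j le_rfl
      have c1 : j + 1 + m + 1 + 2 = j + 1 + 2 + m + 1 := by omega
      have c2 : j + 1 + m + 1 + 2 = j + 2 + (m + 1) + 1 := by omega
      have c3 : j + 1 + m + 2 = j + 1 + 2 + m := by omega
      have c4 : j + 1 + 2 + m = j + 2 + (m + 1) := by omega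
      have a1 := An_succ q w x y (j + 1) m
      have a0 := An_succ q w x y j (m + 1)
      have u1 := Un_succ q w x y (j + 1) m
      have u0 := Un_succ q w x y j (m + 1)
      rw [← c2, ← c4, ← c3, Function.iterate_succ_apply'] at a0 u0
      rw [← c1, ← c3] at a1 u1
      rw [a1, a0, u1, u0]
      set U' := (step w)^[m] (Un q w (j + 1 + m + 2) (x + w + x * w) (y + w + y * w))
      set A' := (step w)^[m] (An q w (j + 1 + m + 2) (x + w + x * w) (y + w + y * w))
      have s1 : step w U' j = U' j + w * U' (j + 1) := rfl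
      have s2 : step w A' j = A' j + w * A' (j + 1) := rfl
      rw [s1, s2]
      have hp : (0 : ℝ) ≤ (1 + w) ^ (j + 1) * (1 + w) ^ j := by positivity
      have h2 := mul_le_mul_of_nonneg_left hI hp
      nlinarith

end KN.PkMONO
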