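import Pool.Agent.Helper70.KN.Goals4

/-!
# Project KN, part 4 (MP_20ee5e_ag), packet NU6 (helper33)
-/

open MeasureTheory Set

namespace Pool.Agent.Helper33.KN.NU6

open Pool.Agent.Helper70.KN

/-- The lower bound for `κ` for small `σ`. -/
theorem small (N : ℕ) (hN : 7 ≤ N) (u : ℝ) (hu : 0 ≤ u) (hu1 : u ≤ 35 / 100) :
    2534 / 1000 * u ≤ 1 - (1 - u) ^ N := by
  have h0 : 0 ≤ 1 - u := by linarith
  have h1 : (1 - u) ^ N ≤ (1 - u) ^ 7 := pow_le_pow_of_le_one h0 (by linarith) hN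
  have h2 : ∀ l : ℕ, (65 / 100 : ℝ) ^ l ≤ (1 - u) ^ l := fun l =>
    pow_le_pow_left₀ (by norm_num) (by linarith) l
  have h3 : 1 - (1 - u) ^ 7 = u * (1 + (1 - u) ^ 1 + (1 - u) ^ 2 + (1 - u) ^ 3 + (1 - u) ^ 4 +
      (1 - u) ^ 5 + (1 - u) ^ 6) := by ring
  have h4 : (2534 / 1000 : ℝ) ≤ 1 + (1 - u) ^ 1 + (1 - u) ^ 2 + (1 - u) ^ 3 + (1 - u) ^ 4 +
      (1 - u) ^ 5 + (1 - u) ^ 6 := by
    have k1 := h2 1
    have k2 := h2 2
    have k3 := h2 3
    have k4 := h2 4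
    have k5 := h2 5
    have k6 := h2 6
    norm_num at k1 k2 k3 k4 k5 k6
    linarith
  have h5 := mul_le_mul_of_nonneg_left h4 hu
  rw [← h3] at h5
  linarith

theorem pw (N : ℕ) (hN : 7 ≤ N) (u : ℝ) (hu : 35 / 100 ≤ u) (hu1 : u ≤ 1) :
    95 / 100 ≤ 1 - (1 - u) ^ N := by
  have h0 : 0 ≤ 1 - u := by linarith
  have h1 : (1 - u) ^ N ≤ (1 - u) ^ 7 := pow_le_pow_of_le_one h0 (by linarith) hN
  have h2 : (1 - u) ^ 7 ≤ (65 / 100 : ℝ) ^ 7 := pow_le_pow_left₀ h0 (by linarith) 7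
  norm_num at h2
  linarith

/-- **NU6.** -/
theorem t (hKP : S_KP) : S_NU6 := by
  intro N hN
  obtain ⟨K0, K1, K2⟩ := hKP N (by omega)
  have hNr : (7 : ℝ) ≤ N := by exact_mod_cast hN
  obtain ⟨n, hn⟩ : ∃ n : ℝ, n = (N : ℝ) - 1 := ⟨_, rfl⟩
  have hn6 : 6 ≤ n := by rw [hn]; linarith
  have hn0 : 0 < n := by linarith
  have hN1 : (N : ℝ) = n + 1 := by rw [hn]; ring
  rw [← hn]
  have hN2 : (N : ℝ) - 2 = n - 1 := by rw [hn]; ring
  rw [hN2]
  obtain ⟨s, hs⟩ : ∃ s : ℝ, s = 37 * n / (20 * n + 28) := ⟨_, rfl⟩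
  have hs0 : 0 < s := by rw [hs]; positivity
  have hα : 2 * (95 / 100) / s ≤ 1267 / 1000 := by
    have h1 : (1267 / 1000 : ℝ) * (37 * n / (20 * n + 28)) =
        (1267 / 1000 * (37 * n)) / (20 * n + 28) := by ring
    rw [div_le_iff₀ hs0, hs, h1, le_div_iff₀ (by positivity)]
    nlinarith
  unfold Pool.Agent.Helper70.KN.Num
  refine ⟨2 * (95 / 100) / s, 95 / 100 / s ^ 2, by positivity, ?_, ?_, ?_⟩
  · intro σ hσ
    have hβ : 0 ≤ 95 / 100 / s ^ 2 * σ := by positivity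
    have hmain : 0 < σ → 2 * (95 / 100) / s - 95 / 100 / s ^ 2 * σ ≤ 95 / 100 / σ := by
      intro hσ0
      have h1 : 0 ≤ 95 / 100 / σ * (1 - σ / s) ^ 2 := by positivity
      have h2 : 95 / 100 / σ * (1 - σ / s) ^ 2 =
          95 / 100 / σ - (2 * (95 / 100) / s - 95 / 100 / s ^ 2 * σ) := by
        field_simp
        ring
      linarith
    rcases eq_or_lt_of_le hσ with h0 | h0
    · rw [← h0, K0]
      simp only [mul_zero, sub_zero]
      linarith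
    rcases le_or_gt σ 2 with h2 | h2
    · rw [K1 σ h0 h2]
      rcases le_or_gt σ (7 / 10) with h7 | h7
      · have h3 := small N hN (σ / 2) (by linarith) (by linarith)
        rw [le_div_iff₀ h0]
        nlinarith
      · refine (hmain h0).trans ?_
        exact div_le_div_of_nonneg_right (pw N hN (σ / 2) (by linarith) (by linarith)) h0.le
    · rw [K2 σ h2.le]
      refine (hmain h0).trans ?_
      exact div_le_div_of_nonneg_right (by norm_num) h0.le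
  · rw [hN2, hN1, hs]
    have h1 : 2 * (95 / 100 / (37 * n / (20 * n + 28)) ^ 2) * (n - 1) / (n + 1) =
        (19 / 10 * (20 * n + 28) ^ 2 * (n - 1)) / (1369 * n ^ 2 * (n + 1)) := by
      field_simp
      ring
    have h2 : 1 - 4 * (n - 1) / (3 * n) / 3 = (5 * n + 4) / (9 * n) := by
      field_simp
      ring
    rw [h1, h2, div_le_div_iff₀ (by positivity) (by positivity)]
    nlinarith [mul_pos hn0 hn0, mul_pos (mul_pos hn0 hn0) hn0,
      mul_pos (mul_pos (mul_pos hn0 hn0) hn0) hn0]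
  · rw [hN1, hs]
    have h1 : (n + 1 - 1) / (n + 1) * (2 * (95 / 100) / (37 * n / (20 * n + 28)) -
        95 / 100 / (37 * n / (20 * n + 28)) ^ 2 * (4 / (3 * n))) =
        (2109 / 10 * n ^ 2 * (20 * n + 28) - 38 / 10 * (20 * n + 28) ^ 2) /
          (4107 * n ^ 2 * (n + 1)) := by
      field_simp
      ring
    rw [h1, lt_div_iff₀ (by positivity)]
    nlinarith [mul_pos hn0 hn0, mul_nonneg (sub_nonneg.2 hn6) (sub_nonneg.2 hn6),
      mul_nonneg (mul_nonneg (sub_nonneg.2 hn6) (sub_nonneg.2 hn6)) (sub_nonneg.2 hn6)]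

end Pool.Agent.Helper33.KN.NU6
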